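import Pool.Agent.H.MP_20495c_lc.TE.GdF
import Pool.Agent.H.MP_a163f2_lc.R.GoodF

/-!
# MP_20495c_lc, block TE, part 6: projective statements over the reals of `ext S G` are good
-/

set_option autoImplicit false
set_option linter.unusedSectionVars false

namespace Pool.Agent.H.MP_20495c_lc

open Pool.Agent.H.MP_07d118_lc Pool.Agent.H.MP_a163f2_lc

universe u v w x

variable {S : Set ZFSet.{0}} [Mdl S] {P : Type v} [Cd S P] {V : Set P} {le : P → P → Prop}
variable {T : Type w} [Cd S T] {U : Type x} [Cd S U]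

theorem GdF.ini (hP : Po S V le) {X : T → Set P → ℕ → ℕ}
    (hX : GdR S V le X) {k : T → Set P → ℕ} (hk : GdF S V le k) :
    GdF S V le (fun t G => ini (X t G) (k t G)) := by
  have h1 : Gd S V le (fun (y : T × Fs) G => k y.1 G = y.2.length) :=
    Gd.comp (k := fun y : T × Fs => (y.1, y.2.length)) hk (IF.fst.pair (IF.length IF.snd))
  have h2 : Gd S V le (fun (y : T × Fs) G => ∀ i : ℕ, i < y.2.length →
      X y.1 G i = y.2.getD i 0) := by
    refine Gd.all hP (Q := fun (y : T × Fs) (i : ℕ) G => i < y.2.length →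
      X y.1 G i = y.2.getD i 0) ?_
    refine Gd.imp hP (Gd.of_in hP (In.lt IF.snd (IF.length (IF.comp IF.snd IF.fst)))) ?_
    exact Gd.comp (k := fun z : (T × Fs) × ℕ => ((z.1.1, z.2), z.1.2.getD z.2 0)) hX
      (((IF.comp IF.fst IF.fst).pair IF.snd).pair (IF.getD (IF.comp IF.snd IF.fst) IF.snd))
  exact (h1.and hP h2).congr fun y G _ => GoodF_ini_iff

theorem GdF.cd (hP : Po S V le) {X : T → Set P → ℕ → ℕ}
    (hX : GdR S V le X) {k : T → Set P → ℕ} (hk : GdF S V le k) :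
    GdF S V le (fun t G => cd (X t G) (k t G)) :=
  (GdF.ini hP hX hk).map hP (F := fun u : Fs => Encodable.encode u) CdP.enc

theorem GdR.appI (hP : Po S V le) {X : T → Set P → ℕ → ℕ} (hX : GdR S V le X)
    {i : ℕ → ℕ} (hi : IF S i) : GdR S V le (fun t G n => X t G (i n)) :=
  GdR.app hP (T := T × ℕ) (X := fun y G => X y.1 G)
    (k := fun y _ => i y.2) (GdR.comp hX IF.fst) (GdF.of_if hP (IF.comp hi IF.snd))

open Classical in
theorem GdF.iteI (hP : Po S V le) {A : T → Prop} (hA : In S A)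
    {k k' : T → Set P → U} (h : GdF S V le k) (h' : GdF S V le k') :
    GdF S V le (fun t G => if A t then k t G else k' t G) :=
  GdF.ite hP (Gd.of_in hP hA) h h'

theorem GdR.jn (hP : Po S V le) {X Y : T → Set P → ℕ → ℕ} (hX : GdR S V le X)
    (hY : GdR S V le Y) : GdR S V le (fun t G => jn (X t G) (Y t G)) := by
  have hd : IF S (fun n : ℕ => n / 2) :=
    IF.prim (Primrec.nat_div.comp Primrec.id (Primrec.const 2))
  have hA : In S (fun n : ℕ => n % 2 = 0) :=
    In.eq (IF.prim (Primrec.nat_mod.comp Primrec.id (Primrec.const 2))) (IF.const 0)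
  have h1 : GdF S V le (fun (y : T × ℕ) G => X y.1 G (y.2 / 2)) := GdR.appI hP hX hd
  have h2 : GdF S V le (fun (y : T × ℕ) G => Y y.1 G (y.2 / 2)) := GdR.appI hP hY hd
  refine (GdF.iteI hP (A := fun y : T × ℕ => y.2 % 2 = 0) (In.comp hA IF.snd) h1 h2).congr
    fun y G _ => ?_
  by_cases h : y.2 % 2 = 0 <;> simp [MP_a163f2_lc.jn, h]

theorem Gd.eqR (hP : Po S V le) {X Y : T → Set P → ℕ → ℕ}
    (hX : GdR S V le X) (hY : GdR S V le Y) : Gd S V le (fun t G => X t G = Y t G) :=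
  (Gd.all hP (Q := fun (t : T) (n : ℕ) G => X t G n = Y t G n) (Gd.eq hP hX hY)).congr
    fun _ _ _ => funext_iff

/-- quantification over the reals of the extension -/
theorem Gd.exRe (hP : Po S V le) {Q : T → (ℕ → ℕ) → Set P → Prop}
    (h : Gd S V le (fun (y : T × ISet S (P × ℕ × ℕ)) G => Q y.1 (evp y.2 G) G)) :
    Gd S V le (fun t G => ∃ x ∈ Reals (ext S G), Q t x G) := by
  refine (Gd.ex (Q := fun (t : T) (R : ISet S (P × ℕ × ℕ)) G => Q t (MP_20495c_lc.evp R G) G)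
    h).congr fun t G hG => ?_
  rw [Reals_ext hP hG]
  constructor
  · rintro ⟨x, ⟨n, rfl⟩, hx⟩
    exact ⟨n, hx⟩
  · rintro ⟨n, hx⟩
    exact ⟨_, ⟨n, rfl⟩, hx⟩

theorem Gd.allRe (hP : Po S V le) {Q : T → (ℕ → ℕ) → Set P → Prop}
    (h : Gd S V le (fun (y : T × ISet S (P × ℕ × ℕ)) G => Q y.1 (evp y.2 G) G)) :
    Gd S V le (fun t G => ∀ x ∈ Reals (ext S G), Q t x G) := by
  refine ((Gd.exRe hP (Q := fun t x G => ¬ Q t x G) (h.not hP)).not hP).congr fun t G _ => ?_
  push Not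
  exact Iff.rfl

section ts

variable {S : Set ZFSet.{0}} [Mdl S] {P : Type v} [Cd S P] {V : Set P} {le : P → P → Prop}

/-- projective statements over the reals of the extension -/
theorem Gd.TS (hP : Po S V le) (n : ℕ) : ∀ {T : Type (max v w)} [Cd S T]
    {B X : T → Set P → ℕ → ℕ}, GdR S V le B → GdR S V le X →
    Gd S V le (fun t G => TS (Reals (ext S G)) n (B t G) (X t G)) := by
  induction n with
  | zero =>
    intro T _ B X hB hX
    refine Gd.ex (Q := fun (t : T) (k : ℕ) G => B t G (MP_a163f2_lc.cd (X t G) k) ≠ 0) ?_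
    refine Gd.not hP (Gd.eq hP ?_ (GdF.of_if hP (IF.const 0)))
    exact GdR.app hP (hB.comp IF.fst) (GdF.cd hP (hX.comp IF.fst) (GdF.of_if hP IF.snd))
  | succ n ih =>
    intro T _ B X hB hX
    refine Gd.exRe hP (Q := fun (t : T) y G => ¬ MP_20495c_lc.TS (Reals (ext S G)) n (B t G)
      (MP_a163f2_lc.jn (X t G) y)) ?_
    refine Gd.not hP (ih (T := T × ISet S (P × ℕ × ℕ)) (hB.comp IF.fst) ?_)
    exact GdR.jn hP (hX.comp IF.fst) (GdR.evp hP IF.snd)

end ts

/-- a name which is a function for the filter `G` -/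
theorem evp_iff_of_fun {R : ISet S (P × ℕ × ℕ)} {G : Set P}
    (h : ∀ m, ∃ k, (∃ p ∈ G, (p, m, k) ∈ R) ∧ ∀ k', (∃ p ∈ G, (p, m, k') ∈ R) → k' = k)
    (n k : ℕ) : evp R G n = k ↔ ∃ p ∈ G, (p, n, k) ∈ R := by
  rw [evp_iff]
  constructor
  · rintro (⟨-, h1⟩ | ⟨h1, -⟩)
    · exact h1
    · exact absurd h h1
  · intro h1
    exact Or.inl ⟨h, h1⟩

end Pool.Agent.H.MP_20495c_lc
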