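import Pool.Agent.H.MP_20495c_lc.TE.Up

/-!
# MP_20495c_lc, block TE, part 2: generic extensions by sets of codes

`gext S G` is a countable transitive model of ZFC which contains `S`, and it is contained in every
transitive model of ZF which contains `S` and `G ∩ S`.
-/

set_option autoImplicit false
set_option linter.unusedSectionVars false

namespace Pool.Agent.H.MP_20495c_lc

open Pool.Agent.H.MP_07d118_lc Pool.Agent.H.MP_a163f2_lc

universe u v w x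

/-! ### Extensions by sets of codes -/

section raw

variable {S : Set ZFSet.{0}} [Mdl S]

theorem gext_mdl {P L : S} {G : Set ZFSet.{0}}
    (hG : Z.Gen P L {x : S | (x : ZFSet.{0}) ∈ G}) : Mdl (gext S G) where
  tr := Z.ex_trans (Z.isVal_zval _)
  cnt := by
    have : Countable S := inferInstance
    exact Set.countable_range _
  zfc := Z.zfc_ex hG (Z.isVal_zval _)

theorem sub_gext {P L : S} {G : Set ZFSet.{0}}
    (hG : Z.Gen P L {x : S | (x : ZFSet.{0}) ∈ G}) : S ⊆ gext S G := fun x hx =>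
  ⟨Z.chk P ⟨x, hx⟩, Z.val_chk Mdl.tr hG (Z.isVal_zval _) ⟨x, hx⟩⟩

end raw

/-! ### Minimality -/

section step

variable {M : Type u} [SetStr M] [ZF M]

/-- the set of the values at `π` with `(π, p) ∈ x`, `p ∈ g`, of the function `U` -/
noncomputable def Vim (g U x : M) : M :=
  image (sep (sUn (sUn x)) (fun π => ∃ p, p ∈ g ∧ opair π p ∈ x)) (fun π => ap U π)

theorem DfF.Vim {n : ℕ} (g : M) {U X : (Fin n → M) → M} (hU : DfF U) (hX : DfF X) :
    DfF (fun w => Vim g (U w) (X w)) := by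
  refine DfF.Image (DfF.Sep (DfF.SUn (DfF.SUn hX))
    (P := fun π w => ∃ p, p ∈ g ∧ opair π p ∈ X w) ?_)
    (F := fun y w => ap (U w) y) (DfF.Ap (DfF.wk hU Fin.succ) (DfF.var 0))
  refine Df.ex (P := fun p (w : Fin (n + 1) → M) => p ∈ g ∧
    opair (w 0) p ∈ X (fun i => w i.succ)) ?_
  exact Df.and (Df.mem (DfF.var 0) (DfF.const _))
    (Df.mem (DfF.Opair (DfF.var 1) (DfF.var 0)) (DfF.wk hX (fun i => i.succ.succ)))

theorem mem_Vim {g U x y : M} : y ∈ Vim g U x ↔ ∃ π p : M, p ∈ g ∧ opair π p ∈ x ∧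
    y = ap U π := by
  have h1 : Df (fun w : Fin 1 → M => ∃ p, p ∈ g ∧ opair (w 0) p ∈ x) := by
    refine Df.ex (P := fun p (w : Fin 1 → M) => p ∈ g ∧ opair (w 0) p ∈ x) ?_
    exact Df.and (Df.mem (DfF.var 0) (DfF.const _))
      (Df.mem (DfF.Opair (DfF.var 1) (DfF.var 0)) (DfF.const _))
  have h2 : DfF (fun w : Fin 1 → M => ap U (w 0)) := DfF.Ap (DfF.const _) (DfF.var 0)
  unfold Vim
  rw [mem_image h2]
  constructor
  · rintro ⟨π, h3, rfl⟩
    obtain ⟨-, p, h4, h5⟩ := (mem_sep h1).1 h3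
    exact ⟨π, p, h4, h5, rfl⟩
  · rintro ⟨π, p, h4, h5, rfl⟩
    refine ⟨π, (mem_sep h1).2 ⟨?_, p, h4, h5⟩, rfl⟩
    rw [mem_sUn]
    refine ⟨upair π p, ?_, mem_upair.2 (Or.inl rfl)⟩
    rw [mem_sUn]
    exact ⟨_, h5, mem_upair.2 (Or.inr rfl)⟩

/-- one step of the evaluation of names -/
noncomputable def Vst (g : M) (x : M) (F : M → M) : M :=
  un (sUn (image x F)) (upair (opair x (Vim g (sUn (image x F)) x))
    (opair x (Vim g (sUn (image x F)) x)))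

theorem Vst_df (g : M) : DfF (fun w : Fin 2 → M => Vst g (w 1) (fun z => ap (w 0) z)) := by
  have h1 : DfF (fun w : Fin 2 → M => sUn (image (w 1) (fun z => ap (w 0) z))) :=
    DfF.SUn (DfF.Image (DfF.var 1) (F := fun z w => ap (w 0) z)
      (DfF.Ap (DfF.var 1) (DfF.var 0)))
  have h2 := DfF.Opair (DfF.var (n := 2) 1) (DfF.Vim g h1 (DfF.var 1))
  exact DfF.Un h1 (DfF.Upair h2 h2)

/-- the graph of the evaluation on the transitive closure -/
noncomputable def Vgr (g : M) (x : M) : M := rc (fun f x => Vst g x (fun z => ap f z)) x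

theorem Vgr_df (g : M) : DfF (fun w : Fin 1 → M => Vgr g (w 0)) :=
  DfF.Rc' (Vst_df g) (DfF.var 0)

theorem Vgr_eq [Std M] (g x : M) : Vgr g x = Vst g x (Vgr g) := by
  refine rc_eq' (x := x) (Vst_df g) (K := fun x F => Vst g x F) (fun f y => rfl)
    fun y F G h => ?_
  unfold Vst
  rw [image_congr h]

theorem mem_Vgr [Std M] {g x w : M} : w ∈ Vgr g x ↔ (∃ z : M, z ∈ x ∧ w ∈ Vgr g z) ∨
    w = opair x (Vim g (sUn (image x (Vgr g))) x) := by
  conv_lhs => rw [Vgr_eq]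
  unfold Vst
  rw [mem_un, mem_sUn, mem_upair, or_self]
  refine or_congr ?_ Iff.rfl
  constructor
  · rintro ⟨b, hb, h⟩
    obtain ⟨z, hz, rfl⟩ := (mem_image (Vgr_df g)).1 hb
    exact ⟨z, hz, h⟩
  · rintro ⟨z, hz, h⟩
    exact ⟨_, (mem_image (Vgr_df g)).2 ⟨z, hz, rfl⟩, h⟩

end step

section min

variable {S N : Set ZFSet.{0}} (hS : Trans S) (hN : Trans N) [ZF S] [ZF N] (hSN : S ⊆ N)
  (G : Set S) {g : ZFSet.{0}} (hg : g ∈ N) (hgG : ∀ x : S, (x : ZFSet.{0}) ∈ g ↔ G x)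

include hS hN hgG

theorem Vgr_spec (x : S) :
    (∀ y : S, y ∈ tcs x → Z.zval G y ∈ N) ∧
    ∀ w : N, w ∈ Vgr (M := N) ⟨g, hg⟩ ⟨x.1, hSN x.2⟩ ↔
      ∃ y : S, y ∈ tcs x ∧ w.1 = ZFSet.pair y.1 (Z.zval G y) := by
  induction x using mem_ind with
  | h x ih =>
    have hval := Z.isVal_zval (S := S) G
    obtain ⟨U, hU⟩ : ∃ U : N, U = sUn (image (⟨x.1, hSN x.2⟩ : N) (Vgr (M := N) ⟨g, hg⟩)) :=
      ⟨_, rfl⟩
    have hUm : ∀ w : N, w ∈ U ↔ ∃ y : S, y ∈ tc x ∧ w.1 = ZFSet.pair y.1 (Z.zval G y) := by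
      intro w
      rw [hU, mem_sUn]
      constructor
      · rintro ⟨b, hb, h⟩
        obtain ⟨z, hz, rfl⟩ := (mem_image (Vgr_df _)).1 hb
        obtain ⟨z', hz', e⟩ := Z.abs_mem hS (x := x) (z := z.1) hz
        have e1 : z = ⟨z'.1, hSN z'.2⟩ := Subtype.ext e.symm
        rw [e1] at h
        obtain ⟨y, hy, h1⟩ := ((ih z' hz').2 w).1 h
        exact ⟨y, tc_eq.2 ⟨z', hz', hy⟩, h1⟩
      · rintro ⟨y, hy, h1⟩
        obtain ⟨z', hz', h2⟩ := tc_eq.1 hy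
        exact ⟨_, (mem_image (Vgr_df _)).2 ⟨⟨z'.1, hSN z'.2⟩, hz', rfl⟩,
          ((ih z' hz').2 w).2 ⟨y, h2, h1⟩⟩
    have hin : ∀ y : S, y ∈ tc x → Z.zval G y ∈ N := by
      intro y hy
      obtain ⟨z', hz', h2⟩ := tc_eq.1 hy
      exact (ih z' hz').1 y h2
    have hap : ∀ (y : S) (hy : y ∈ tc x), ap U (⟨y.1, hSN y.2⟩ : N) =
        ⟨Z.zval G y, hin y hy⟩ := by
      intro y hy
      have hr : ∀ v : N, Rel U (⟨y.1, hSN y.2⟩ : N) v ↔ v = ⟨Z.zval G y, hin y hy⟩ := by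
        intro v
        rw [rel_iff, hUm, Z.abs_opair hN]
        constructor
        · rintro ⟨y', -, h2⟩
          obtain ⟨h3, h4⟩ := ZFSet.pair_inj.1 h2
          have h5 : y' = y := Subtype.ext h3.symm
          rw [h5] at h4
          exact Subtype.ext h4
        · rintro rfl
          exact ⟨y, hy, rfl⟩
      exact iota_eq ⟨_, (hr _).2 rfl, fun v hv => (hr v).1 hv⟩ ((hr _).2 rfl)
    have hpi : ∀ π p : S, opair π p ∈ x → π ∈ tc x := by
      intro π p h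
      refine tc_eq.2 ⟨_, h, ?_⟩
      have h1 : upair π p ∈ tcs (opair π p) :=
        tcs_trs _ _ (self_mem_tcs _) _ (mem_upair.2 (Or.inr rfl))
      exact tcs_trs _ _ h1 _ (mem_upair.2 (Or.inl rfl))
    have hM : (Vim (⟨g, hg⟩ : N) U ⟨x.1, hSN x.2⟩).1 = Z.zval G x := by
      refine ZFSet.ext fun v => ?_
      rw [hval x v]
      constructor
      · intro hv
        obtain ⟨v', hv', rfl⟩ := Z.abs_mem hN hv
        obtain ⟨π, p, hp, hπ, h1⟩ := mem_Vim.1 hv'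
        have h2 : (opair π p).1 ∈ x.1 := hπ
        obtain ⟨q, hq, e⟩ := Z.abs_mem hS (x := x) h2
        rw [Z.abs_opair hN] at e
        have h3 : ZFSet.pair π.1 p.1 ∈ S := e ▸ q.2
        have h4 : ({π.1, p.1} : ZFSet.{0}) ∈ S := by
          refine hS _ h3 _ ?_
          show ({π.1, p.1} : ZFSet.{0}) ∈ ({{π.1}, {π.1, p.1}} : ZFSet.{0})
          rw [ZFSet.mem_pair]
          exact Or.inr rfl
        have h5 : π.1 ∈ S := hS _ h4 _ (by rw [ZFSet.mem_pair]; exact Or.inl rfl)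
        have h6 : p.1 ∈ S := hS _ h4 _ (by rw [ZFSet.mem_pair]; exact Or.inr rfl)
        have h7 : q = opair (⟨π.1, h5⟩ : S) ⟨p.1, h6⟩ := by
          refine Subtype.ext ?_
          rw [e, Z.abs_opair hS]
        rw [h7] at hq
        refine ⟨⟨π.1, h5⟩, ⟨p.1, h6⟩, (hgG _).1 hp, hq, ?_⟩
        have h8 := hap ⟨π.1, h5⟩ (hpi _ _ hq)
        rw [h1]
        exact congrArg (fun z : N => z.1) h8
      · rintro ⟨π, p, hp, hπ, rfl⟩
        have h8 := hap π (hpi _ _ hπ)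
        have h9 : (⟨Z.zval G π, hin π (hpi _ _ hπ)⟩ : N) ∈ Vim (⟨g, hg⟩ : N) U ⟨x.1, hSN x.2⟩ := by
          refine mem_Vim.2 ⟨⟨π.1, hSN π.2⟩, ⟨p.1, hSN p.2⟩, (hgG p).2 hp, ?_, h8.symm⟩
          show (opair (⟨π.1, hSN π.2⟩ : N) ⟨p.1, hSN p.2⟩).1 ∈ x.1
          rw [Z.abs_opair hN]
          have h10 : (opair π p).1 ∈ x.1 := hπ
          rwa [Z.abs_opair hS] at h10
        exact h9
    have hx : Z.zval G x ∈ N := hM ▸ (Vim (⟨g, hg⟩ : N) U ⟨x.1, hSN x.2⟩).2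
    refine ⟨fun y hy => ?_, fun w => ?_⟩
    · rcases mem_tcs.1 hy with h | rfl
      · exact hin y h
      · exact hx
    · rw [mem_Vgr]
      constructor
      · rintro (⟨z, hz, h⟩ | h)
        · obtain ⟨z', hz', e⟩ := Z.abs_mem hS (x := x) (z := z.1) hz
          have e1 : z = ⟨z'.1, hSN z'.2⟩ := Subtype.ext e.symm
          rw [e1] at h
          obtain ⟨y, hy, h1⟩ := ((ih z' hz').2 w).1 h
          exact ⟨y, mem_tcs.2 (Or.inl (tc_eq.2 ⟨z', hz', hy⟩)), h1⟩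
        · refine ⟨x, self_mem_tcs x, ?_⟩
          rw [h, Z.abs_opair hN, ← hU, hM]
      · rintro ⟨y, hy, h1⟩
        rcases mem_tcs.1 hy with h | rfl
        · obtain ⟨z', hz', h2⟩ := tc_eq.1 h
          exact Or.inl ⟨⟨z'.1, hSN z'.2⟩, hz', ((ih z' hz').2 w).2 ⟨y, h2, h1⟩⟩
        · refine Or.inr (Subtype.ext ?_)
          rw [h1, Z.abs_opair hN, ← hU, hM]

include hSN hg

theorem zval_mem (x : S) : Z.zval G x ∈ N :=
  (Vgr_spec hS hN hSN G hg hgG x).1 x (self_mem_tcs x)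

end min

/-- `gext S G` is contained in every transitive model of ZF containing `S` and `G` -/
theorem gext_sub {S N : Set ZFSet.{0}} [Mdl S] (hN : Trans N) [ZF N] (hSN : S ⊆ N)
    {G : Set ZFSet.{0}} {g : ZFSet.{0}} (hg : g ∈ N) (hgG : ∀ x ∈ S, x ∈ g ↔ x ∈ G) :
    gext S G ⊆ N := by
  rintro _ ⟨x, rfl⟩
  exact zval_mem Mdl.tr hN hSN _ hg (fun x => hgG x.1 x.2) x

end Pool.Agent.H.MP_20495c_lc
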