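import Pool.Agent.H.MP_20495c_lc.TE.Typ

/-!
# MP_20495c_lc, block TE, part 4: good statements for an arbitrary typed poset

`Gd S V le Q`: `Q t G` (for `t` in the coded type `T`, `G` generic for `(V, le)`) has an internal
truth definition.  `Fc S V le p Q`: `p` forces `Q`.
-/

set_option autoImplicit false
set_option linter.unusedSectionVars false

namespace Pool.Agent.H.MP_20495c_lc

open Pool.Agent.H.MP_07d118_lc Pool.Agent.H.MP_a163f2_lc

universe u v w x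

variable {S : Set ZFSet.{0}} [Mdl S] {P : Type v} [Cd S P] {V : Set P} {le : P → P → Prop}

theorem iset_ctb {T : Type v} [Cd S T] : Countable (ISet S T) := by
  have : Countable S := inferInstance
  exact Function.Injective.countable (f := fun A : ISet S T => (Cd.code A : S)) Cd.inj

theorem exists_gt (hP : Po S V le) {p : P} (hp : p ∈ V) : ∃ G, Gt S V le G ∧ p ∈ G := by
  classical
  have h1 : Countable (ISet S P) := iset_ctb
  have h2 : Nonempty (ISet S P) := ⟨ISet.mk (In.const True)⟩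
  obtain ⟨e, he⟩ := exists_surjective_nat (ISet S P)
  have step : ∀ (D : ISet S P) (q : {q // q ∈ V}), ∃ r : {r // r ∈ V},
      le r.1 q.1 ∧ ((∀ p ∈ V, ∃ q ∈ V, le q p ∧ q ∈ D) → r.1 ∈ D) := by
    intro D q
    by_cases hD : ∀ p ∈ V, ∃ q ∈ V, le q p ∧ q ∈ D
    · obtain ⟨r, hr, h1, h2⟩ := hD q.1 q.2
      exact ⟨⟨r, hr⟩, h1, fun _ => h2⟩
    · exact ⟨q, hP.refl _ q.2, fun h => absurd h hD⟩
  choose s hs1 hs2 using step
  let a : ℕ → {q // q ∈ V} := fun n => Nat.rec ⟨p, hp⟩ (fun n q => s (e n) q) n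
  have ha0 : a 0 = ⟨p, hp⟩ := rfl
  have haS : ∀ n, a (n + 1) = s (e n) (a n) := fun n => rfl
  have hmono : ∀ m n, m ≤ n → le (a n).1 (a m).1 := by
    intro m n h
    induction n, h using Nat.le_induction with
    | base => exact hP.refl _ (a m).2
    | succ n _ ih =>
      rw [haS]
      exact hP.trans _ (s (e n) (a n)).2 _ (a n).2 _ (a m).2 (hs1 _ _) ih
  refine ⟨{q | q ∈ V ∧ ∃ n, le (a n).1 q}, ⟨?_, ?_, ?_, ?_, ?_⟩, hp, 0, hP.refl p hp⟩
  · rintro q ⟨h1, -⟩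
    exact h1
  · exact ⟨p, hp, 0, hP.refl p hp⟩
  · rintro q ⟨h1, n, h2⟩ r hr h3
    exact ⟨hr, n, hP.trans _ (a n).2 _ h1 _ hr h2 h3⟩
  · rintro q ⟨h1, n, h2⟩ r ⟨h3, m, h4⟩
    refine ⟨(a (max n m)).1, ⟨(a (max n m)).2, max n m, hP.refl _ (a _).2⟩, ?_, ?_⟩
    · exact hP.trans _ (a _).2 _ (a n).2 _ h1 (hmono _ _ (le_max_left _ _)) h2
    · exact hP.trans _ (a _).2 _ (a m).2 _ h3 (hmono _ _ (le_max_right _ _)) h4
  · intro D hD
    obtain ⟨n, rfl⟩ := he D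
    refine ⟨(a (n + 1)).1, ⟨(a (n + 1)).2, n + 1, hP.refl _ (a (n + 1)).2⟩, ?_⟩
    rw [haS]
    exact hs2 _ _ hD

variable {T : Type w} [Cd S T] {U : Type x} [Cd S U]

/-- the order restricted to `V` -/
def lv (V : Set P) (le : P → P → Prop) (p q : P) : Prop := p ∈ V ∧ q ∈ V ∧ le p q

/-- the order on `V` is internal -/
theorem Po.lv (hP : Po S V le) {f g : T → P} (hf : IF S f) (hg : IF S g) :
    In S (fun t => MP_20495c_lc.lv V le (f t) (g t)) :=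
  In.comp2 (P := fun p q => p ∈ V ∧ q ∈ V ∧ le p q) hP.inle hf hg

/-- genericity, local form -/
theorem Gt.meets_below (hP : Po S V le) {G : Set P} (hG : Gt S V le G) {p : P} (hp : p ∈ G)
    (D : ISet S P) (hD : ∀ q ∈ V, le q p → ∃ r ∈ V, le r q ∧ r ∈ D) : ∃ r ∈ G, r ∈ D := by
  have hc : In S (fun q : P => q ∈ D ∨ ∀ r : P, lv V le r q → ¬ lv V le r p) := by
    refine In.or D.in_mem ?_
    refine In.all (P := fun (q r : P) => lv V le r q → ¬ lv V le r p) ?_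
    exact In.imp (hP.lv IF.snd IF.fst) (In.not (hP.lv IF.snd (IF.const p)))
  obtain ⟨r, hr, h1⟩ := hG.meets (ISet.mk hc) (by
    intro q hq
    by_cases h : ∃ r ∈ V, le r q ∧ le r p
    · obtain ⟨r, hr, h1, h2⟩ := h
      obtain ⟨s, hs, h3, h4⟩ := hD r hr h2
      exact ⟨s, hs, hP.trans _ hs _ hr _ hq h3 h1, Or.inl h4⟩
    · exact ⟨q, hq, hP.refl q hq, Or.inr fun r h1 h2 => h ⟨r, h1.1, h1.2.2, h2.2.2⟩⟩)
  rcases h1 with h1 | h1
  · exact ⟨r, hr, h1⟩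
  · obtain ⟨s, hs, h2, h3⟩ := hG.dir r hr p hp
    exact absurd ⟨hG.sub s hs, hG.sub p hp, h3⟩ (h1 s ⟨hG.sub s hs, hG.sub r hr, h2⟩)

/-- a member of the filter which is not below `q` has an extension in the filter incompatible with
`q`, if `q` is not in the filter -/
theorem Gt.exists_incomp (hP : Po S V le) {G : Set P} (hG : Gt S V le G) {q : P} (hq : q ∈ V)
    (hqG : q ∉ G) : ∃ p ∈ G, ∀ r ∈ V, le r p → ¬ le r q := by
  have hc : In S (fun p : P => lv V le p q ∨ ∀ r : P, lv V le r p → ¬ lv V le r q) := by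
    refine In.or (hP.lv IF.id (IF.const q)) ?_
    refine In.all (P := fun (p r : P) => lv V le r p → ¬ lv V le r q) ?_
    exact In.imp (hP.lv IF.snd IF.fst) (In.not (hP.lv IF.snd (IF.const q)))
  obtain ⟨p, hp, h1⟩ := hG.meets (ISet.mk hc) (by
    intro p hp
    by_cases h : ∃ r ∈ V, le r p ∧ le r q
    · obtain ⟨r, hr, h1, h2⟩ := h
      exact ⟨r, hr, h1, Or.inl ⟨hr, hq, h2⟩⟩
    · exact ⟨p, hp, hP.refl p hp, Or.inr fun r h1 h2 => h ⟨r, h1.1, h1.2.2, h2.2.2⟩⟩)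
  rcases h1 with h1 | h1
  · exact absurd (hG.up p hp q hq h1.2.2) hqG
  · exact ⟨p, hp, fun r hr h2 h3 => h1 r ⟨hr, hG.sub p hp, h2⟩ ⟨hr, hq, h3⟩⟩



/-- `Q` has an internal truth definition. -/
def Gd (S : Set ZFSet.{0}) [Mdl S] {P : Type v} [Cd S P] (V : Set P) (le : P → P → Prop)
    {T : Type w} [Cd S T] (Q : T → Set P → Prop) : Prop :=
  ∃ F : T → P → Prop, In S (fun y : T × P => F y.1 y.2) ∧ (∀ t p, F t p → p ∈ V) ∧
    ∀ t G, Gt S V le G → (Q t G ↔ ∃ p ∈ G, F t p)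

/-- `p` forces `Q`. -/
def Fc (S : Set ZFSet.{0}) [Mdl S] {P : Type v} [Cd S P] (V : Set P) (le : P → P → Prop)
    (p : P) (Q : Set P → Prop) : Prop := ∀ G, Gt S V le G → p ∈ G → Q G

theorem Fc.mono {p q : P} {Q : Set P → Prop} (h : Fc S V le p Q) (hp : p ∈ V)
    (hqp : le q p) : Fc S V le q Q := fun G hG hq => h G hG (hG.up q hq p hp hqp)

theorem Gd.congr {Q Q' : T → Set P → Prop} (h : Gd S V le Q)
    (e : ∀ t G, Gt S V le G → (Q' t G ↔ Q t G)) : Gd S V le Q' := by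
  obtain ⟨F, h1, h2, h3⟩ := h
  exact ⟨F, h1, h2, fun t G hG => (e t G hG).trans (h3 t G hG)⟩

theorem Gd.of_in (hP : Po S V le) {A : T → Prop} (h : In S A) :
    Gd S V le (fun t _ => A t) := by
  refine ⟨fun t p => A t ∧ p ∈ V, In.and (h.comp IF.fst) (hP.inV.comp IF.snd),
    fun t p h => h.2, fun t G hG => ?_⟩
  constructor
  · intro h
    obtain ⟨p, hp⟩ := hG.ne
    exact ⟨p, hp, h, hG.sub p hp⟩
  · rintro ⟨p, -, h, -⟩
    exact h

theorem Gd.mem (hP : Po S V le) {p : T → P} (hp : IF S p) :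
    Gd S V le (fun t G => p t ∈ G) := by
  refine ⟨fun t q => q = p t ∧ q ∈ V, In.and (In.eq IF.snd (IF.comp hp IF.fst))
    (hP.inV.comp IF.snd), fun t q h => h.2, fun t G hG => ⟨fun h => ?_, ?_⟩⟩
  · exact ⟨_, h, rfl, hG.sub _ h⟩
  · rintro ⟨q, h1, rfl, -⟩
    exact h1

theorem Gd.ex {Q : T → U → Set P → Prop} (h : Gd S V le (fun y : T × U => Q y.1 y.2)) :
    Gd S V le (fun t G => ∃ s, Q t s G) := by
  obtain ⟨F, h1, h2, h3⟩ := h
  refine ⟨fun t p => ∃ s, F (t, s) p, ?_, ?_, fun t G hG => ?_⟩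
  · refine In.ex (P := fun (y : T × P) (s : U) => F (y.1, s) y.2) ?_
    exact In.comp2 (P := F) h1 ((IF.comp IF.fst IF.fst).pair IF.snd) (IF.comp IF.snd IF.fst)
  · rintro t p ⟨s, hs⟩
    exact h2 (t, s) p hs
  · constructor
    · rintro ⟨s, hs⟩
      obtain ⟨p, hp, h⟩ := (h3 (t, s) G hG).1 hs
      exact ⟨p, hp, s, h⟩
    · rintro ⟨p, hp, s, h⟩
      exact ⟨s, (h3 (t, s) G hG).2 ⟨p, hp, h⟩⟩

theorem Gd_up_in (hP : Po S V le) {F : T → P → Prop}
    (h1 : In S (fun y : T × P => F y.1 y.2)) :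
    In S (fun y : T × P => ∃ p : P, F y.1 p ∧ lv V le y.2 p) := by
  refine In.ex (P := fun (y : T × P) (p : P) => F y.1 p ∧ lv V le y.2 p) ?_
  exact In.and (In.comp2 (P := F) h1 (IF.comp IF.fst IF.fst) IF.snd)
    (hP.lv (IF.comp IF.snd IF.fst) IF.snd)

theorem Gd.not (hP : Po S V le) {Q : T → Set P → Prop} (h : Gd S V le Q) :
    Gd S V le (fun t G => ¬ Q t G) := by
  obtain ⟨F, h1, h2, h3⟩ := h
  have hE := Gd_up_in hP h1
  have hN : In S (fun y : T × P => y.2 ∈ V ∧ ∀ r : P, lv V le r y.2 →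
      ¬ ∃ p : P, F y.1 p ∧ lv V le r p) := by
    refine In.and (hP.inV.comp IF.snd) ?_
    refine In.all (P := fun (y : T × P) (r : P) => lv V le r y.2 →
      ¬ ∃ p : P, F y.1 p ∧ lv V le r p) ?_
    refine In.imp (hP.lv IF.snd (IF.comp IF.snd IF.fst)) (In.not ?_)
    exact In.comp2 (P := fun t r => ∃ p : P, F t p ∧ lv V le r p) hE
      (IF.comp IF.fst IF.fst) IF.snd
  refine ⟨fun t p => p ∈ V ∧ ∀ r : P, lv V le r p → ¬ ∃ p : P, F t p ∧ lv V le r p, hN,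
    fun t p h => h.1, fun t G hG => ?_⟩
  constructor
  · intro hQ
    have hin : In S (fun p : P => (p ∈ V ∧ ∀ r : P, lv V le r p →
        ¬ ∃ p : P, F t p ∧ lv V le r p) ∨ ∃ p' : P, F t p' ∧ lv V le p p') :=
      In.or (In.fix (P := fun t p => p ∈ V ∧ ∀ r : P, lv V le r p →
        ¬ ∃ p : P, F t p ∧ lv V le r p) hN t)
        (In.fix (P := fun t r => ∃ p : P, F t p ∧ lv V le r p) hE t)
    obtain ⟨p, hp, h4⟩ := hG.meets (ISet.mk hin) (by
      intro q hq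
      by_cases h : ∃ r : P, lv V le r q ∧ ∃ p : P, F t p ∧ lv V le r p
      · obtain ⟨r, hr, h6⟩ := h
        exact ⟨r, hr.1, hr.2.2, Or.inr h6⟩
      · exact ⟨q, hq, hP.refl q hq, Or.inl ⟨hq, fun r hr h6 => h ⟨r, hr, h6⟩⟩⟩)
    rcases h4 with h4 | ⟨p', h5, h6⟩
    · exact ⟨p, hp, h4⟩
    · exact absurd ((h3 t G hG).2 ⟨p', hG.up p hp p' (h2 t p' h5) h6.2.2, h5⟩) hQ
  · rintro ⟨p, hp, -, h4⟩ hQ
    obtain ⟨p', hp', h5⟩ := (h3 t G hG).1 hQ
    obtain ⟨r, hr, h6, h7⟩ := hG.dir p hp p' hp'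
    exact h4 r ⟨hG.sub r hr, hG.sub p hp, h6⟩ ⟨p', h5, hG.sub r hr, hG.sub p' hp', h7⟩

theorem Gd.and (hP : Po S V le) {Q Q' : T → Set P → Prop} (h : Gd S V le Q)
    (h' : Gd S V le Q') : Gd S V le (fun t G => Q t G ∧ Q' t G) := by
  obtain ⟨F, h1, h2, h3⟩ := h
  obtain ⟨F', h1', h2', h3'⟩ := h'
  refine ⟨fun t p => p ∈ V ∧ (∃ p1 : P, F t p1 ∧ lv V le p p1) ∧
    ∃ p2 : P, F' t p2 ∧ lv V le p p2,
    In.and (hP.inV.comp IF.snd) (In.and (Gd_up_in hP h1) (Gd_up_in hP h1')),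
    fun t p h => h.1, fun t G hG => ?_⟩
  constructor
  · rintro ⟨hQ, hQ'⟩
    obtain ⟨p1, hp1, h4⟩ := (h3 t G hG).1 hQ
    obtain ⟨p2, hp2, h5⟩ := (h3' t G hG).1 hQ'
    obtain ⟨r, hr, h6, h7⟩ := hG.dir p1 hp1 p2 hp2
    exact ⟨r, hr, hG.sub r hr, ⟨p1, h4, hG.sub r hr, hG.sub _ hp1, h6⟩, p2, h5,
      hG.sub r hr, hG.sub _ hp2, h7⟩
  · rintro ⟨p, hp, -, ⟨p1, h4, h6⟩, p2, h5, h7⟩
    exact ⟨(h3 t G hG).2 ⟨p1, hG.up p hp p1 (h2 t p1 h4) h6.2.2, h4⟩,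
      (h3' t G hG).2 ⟨p2, hG.up p hp p2 (h2' t p2 h5) h7.2.2, h5⟩⟩

theorem Gd.or {Q Q' : T → Set P → Prop} (h : Gd S V le Q) (h' : Gd S V le Q') :
    Gd S V le (fun t G => Q t G ∨ Q' t G) := by
  obtain ⟨F, h1, h2, h3⟩ := h
  obtain ⟨F', h1', h2', h3'⟩ := h'
  refine ⟨fun t p => F t p ∨ F' t p, In.or h1 h1', ?_, fun t G hG => ?_⟩
  · rintro t p (h | h)
    · exact h2 t p h
    · exact h2' t p h
  · constructor
    · rintro (h | h)
      · obtain ⟨p, hp, h4⟩ := (h3 t G hG).1 h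
        exact ⟨p, hp, Or.inl h4⟩
      · obtain ⟨p, hp, h4⟩ := (h3' t G hG).1 h
        exact ⟨p, hp, Or.inr h4⟩
    · rintro ⟨p, hp, h | h⟩
      · exact Or.inl ((h3 t G hG).2 ⟨p, hp, h⟩)
      · exact Or.inr ((h3' t G hG).2 ⟨p, hp, h⟩)

theorem Gd.imp (hP : Po S V le) {Q Q' : T → Set P → Prop} (h : Gd S V le Q)
    (h' : Gd S V le Q') : Gd S V le (fun t G => Q t G → Q' t G) :=
  ((h.not hP).or h').congr fun _ _ _ => by tauto

theorem Gd.iff (hP : Po S V le) {Q Q' : T → Set P → Prop} (h : Gd S V le Q)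
    (h' : Gd S V le Q') : Gd S V le (fun t G => Q t G ↔ Q' t G) :=
  ((h.imp hP h').and hP (h'.imp hP h)).congr fun _ _ _ => by tauto

theorem Gd.all (hP : Po S V le) {Q : T → U → Set P → Prop}
    (h : Gd S V le (fun y : T × U => Q y.1 y.2)) : Gd S V le (fun t G => ∀ s, Q t s G) :=
  ((Gd.ex (Q := fun t s G => ¬ Q t s G) (h.not hP)).not hP).congr fun _ _ _ => by simp

/-- substitution of an internal function for the context -/
theorem Gd.comp {Q : T → Set P → Prop} (h : Gd S V le Q) {k : U → T} (hk : IF S k) :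
    Gd S V le (fun s G => Q (k s) G) := by
  obtain ⟨F, h1, h2, h3⟩ := h
  exact ⟨fun s p => F (k s) p, In.comp2 (P := F) h1 (IF.comp hk IF.fst) IF.snd,
    fun s p h => h2 (k s) p h, fun s G hG => h3 (k s) G hG⟩

/-! ### Forcing and truth -/

/-- The truth lemma. -/
theorem Gd.truth {Q : T → Set P → Prop} (h : Gd S V le Q) {t : T} {G : Set P}
    (hG : Gt S V le G) (hQ : Q t G) : ∃ p ∈ G, Fc S V le p (Q t) := by
  obtain ⟨F, h1, h2, h3⟩ := h
  obtain ⟨p, hp, h4⟩ := (h3 t G hG).1 hQ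
  exact ⟨p, hp, fun G' hG' hp' => (h3 t G' hG').2 ⟨p, hp', h4⟩⟩

/-- The forcing relation is internal. -/
theorem Gd.fo (hP : Po S V le) {Q : T → Set P → Prop} (h : Gd S V le Q) {p : T → P}
    (hp : IF S p) : In S (fun t => Fc S V le (p t) (Q t)) := by
  obtain ⟨F, h1, h2, h3⟩ := h
  have hE := Gd_up_in hP h1
  have hin : In S (fun t => p t ∉ V ∨ ∀ r : P, lv V le r (p t) →
      ∃ r' : P, lv V le r' r ∧ ∃ p0 : P, F t p0 ∧ lv V le r' p0) := by
    refine In.or (In.not (hP.inV.comp hp)) ?_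
    refine In.all (P := fun (t : T) (r : P) => lv V le r (p t) →
      ∃ r' : P, lv V le r' r ∧ ∃ p0 : P, F t p0 ∧ lv V le r' p0) ?_
    refine In.imp (hP.lv IF.snd (IF.comp hp IF.fst)) ?_
    refine In.ex (P := fun (y : T × P) (r' : P) => lv V le r' y.2 ∧
      ∃ p0 : P, F y.1 p0 ∧ lv V le r' p0) ?_
    refine In.and (hP.lv IF.snd (IF.comp IF.snd IF.fst)) ?_
    exact In.comp2 (P := fun t r => ∃ p : P, F t p ∧ lv V le r p) hE
      (IF.comp IF.fst IF.fst) IF.snd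
  refine hin.congr fun t => ?_
  constructor
  · intro hFo
    by_cases hpt : p t ∈ V
    · refine Or.inr fun r hr => ?_
      obtain ⟨G, hG, hrG⟩ := exists_gt hP hr.1
      obtain ⟨p0, hp0, h4⟩ := (h3 t G hG).1 (hFo G hG (hG.up r hrG _ hpt hr.2.2))
      obtain ⟨r', hr', h5, h6⟩ := hG.dir r hrG p0 hp0
      exact ⟨r', ⟨hG.sub r' hr', hr.1, h5⟩, p0, h4, hG.sub r' hr', hG.sub _ hp0, h6⟩
    · exact Or.inl hpt
  · rintro (hpt | hd) G hG hpG
    · exact absurd (hG.sub _ hpG) hpt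
    · obtain ⟨r', hr', p0, h5, h6⟩ := hG.meets_below hP hpG
        (ISet.mk (In.fix (P := fun t r => ∃ p : P, F t p ∧ lv V le r p) hE t))
        (fun q hq hle => by
          obtain ⟨r', hr', h5⟩ := hd q ⟨hq, hG.sub _ hpG, hle⟩
          exact ⟨r', hr'.1, hr'.2.2, h5⟩)
      exact (h3 t G hG).2 ⟨p0, hG.up r' hr' p0 (h2 t p0 h5) h6.2.2, h5⟩

/-- the forcing relation with the condition as a variable -/
theorem Gd.fo' (hP : Po S V le) {Q : T → Set P → Prop} (h : Gd S V le Q) :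
    In S (fun y : T × P => Fc S V le y.2 (Q y.1)) :=
  Gd.fo (Q := fun y : T × P => Q y.1) hP (h.comp IF.fst) IF.snd

/-- If `p` does not force `Q`, some extension forces the negation. -/
theorem Gd.exists_not (hP : Po S V le) {Q : T → Set P → Prop} (h : Gd S V le Q) {t : T}
    {p : P} (hn : ¬ Fc S V le p (Q t)) :
    ∃ r ∈ V, le r p ∧ Fc S V le r (fun G => ¬ Q t G) := by
  unfold Fc at hn
  push Not at hn
  obtain ⟨G, hG, hpG, hQ⟩ := hn
  obtain ⟨p', hp', h1⟩ := (h.not hP).truth hG hQ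
  obtain ⟨r, hr, h2, h3⟩ := hG.dir p hpG p' hp'
  exact ⟨r, hG.sub _ hr, h2, h1.mono (hG.sub _ hp') h3⟩

/-- decision -/
theorem Gd.decide (hP : Po S V le) {Q : T → Set P → Prop} (h : Gd S V le Q) {t : T} {p : P}
    (hp : p ∈ V) : ∃ r ∈ V, le r p ∧ (Fc S V le r (Q t) ∨ Fc S V le r (fun G => ¬ Q t G)) := by
  by_cases h1 : Fc S V le p (Q t)
  · exact ⟨p, hp, hP.refl p hp, Or.inl h1⟩
  · obtain ⟨r, hr, h2, h3⟩ := h.exists_not hP h1
    exact ⟨r, hr, h2, Or.inr h3⟩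

/-- If every extension of `p` has an extension forcing `Q`, then `p` forces `Q`. -/
theorem Gd.of_dense (hP : Po S V le) {Q : T → Set P → Prop} (h : Gd S V le Q) {t : T} {p : P}
    (hp : p ∈ V) (hd : ∀ q ∈ V, le q p → ∃ r ∈ V, le r q ∧ Fc S V le r (Q t)) :
    Fc S V le p (Q t) := by
  by_contra hn
  obtain ⟨r, hr, h1, h2⟩ := h.exists_not hP hn
  obtain ⟨r', hr', h3, h4⟩ := hd r hr h1
  obtain ⟨G, hG, hG'⟩ := exists_gt hP hr'
  exact h2 G hG (hG.up r' hG' r hr h3) (h4 G hG hG')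

/-- a good statement about `G` is internal in the extension -/
theorem Gd.in_ext (hP : Po S V le) {Q : T → Set P → Prop} (h : Gd S V le Q) {G : Set P}
    (hG : Gt S V le G) {N : Set ZFSet.{0}} [Mdl N] (hN : N = ext S G) [Cd N T] [Cx S N T] :
    In N (fun t => Q t G) := by
  obtain ⟨F, h1, h2, h3⟩ := h
  exact (In_ext_iff hP hG hN).2 ⟨fun y => F y.1 y.2, h1, fun t => h3 t G hG⟩

end Pool.Agent.H.MP_20495c_lc
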