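import Pool.Agent.H.MP_20495c_lc.TE.Gd

/-!
# MP_20495c_lc, block TE, part 5: good values, good reals, quantifiers over the reals of `ext S G`

The reals of `ext S G` are the values `evp R G` of the `R : ISet S (P × ℕ × ℕ)`.
-/

set_option autoImplicit false
set_option linter.unusedSectionVars false

namespace Pool.Agent.H.MP_20495c_lc

open Pool.Agent.H.MP_07d118_lc Pool.Agent.H.MP_a163f2_lc

universe u v w x

variable {S : Set ZFSet.{0}} [Mdl S] {P : Type v} [Cd S P] {V : Set P} {le : P → P → Prop}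
variable {T : Type w} [Cd S T] {U : Type x} [Cd S U]

/-! ### Values -/

/-- `k t G` is a value in a coded type with an internal forcing relation. -/
def GdF (S : Set ZFSet.{0}) [Mdl S] {P : Type v} [Cd S P] (V : Set P) (le : P → P → Prop)
    {T : Type w} [Cd S T] {U : Type x} [Cd S U] (k : T → Set P → U) : Prop :=
  Gd S V le (fun (y : T × U) G => k y.1 G = y.2)

theorem GdF.congr {k k' : T → Set P → U} (h : GdF S V le k)
    (e : ∀ t G, Gt S V le G → k' t G = k t G) : GdF S V le k' :=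
  Gd.congr h fun y G hG => by rw [e y.1 G hG]

theorem GdF.of_if (hP : Po S V le) {k : T → U} (h : IF S k) : GdF S V le (fun t _ => k t) :=
  Gd.of_in hP h

/-- substitution of a good value for a variable of the context -/
theorem Gd.subst (hP : Po S V le) {Q : T → U → Set P → Prop}
    (h : Gd S V le (fun (y : T × U) G => Q y.1 y.2 G)) {k : T → Set P → U}
    (hk : GdF S V le k) : Gd S V le (fun t G => Q t (k t G) G) :=
  (Gd.ex (Q := fun t s G => k t G = s ∧ Q t s G) (Gd.and hP hk h)).congr fun _ _ _ => by simp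

/-- change of the context -/
theorem GdF.comp {X : Type*} [Cd S X] {k : T → Set P → U} (hk : GdF S V le k) {g : X → T}
    (hg : IF S g) : GdF S V le (fun u G => k (g u) G) :=
  Gd.comp (k := fun y : X × U => (g y.1, y.2)) hk ((IF.comp hg IF.fst).pair IF.snd)

theorem GdF.subst (hP : Po S V le) {X : Type*} [Cd S X] {k' : T → U → Set P → X}
    (h : GdF S V le (fun (y : T × U) G => k' y.1 y.2 G)) {k : T → Set P → U}
    (hk : GdF S V le k) : GdF S V le (fun t G => k' t (k t G) G) := by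
  have h1 : Gd S V le (fun (z : (T × X) × U) G => k' z.1.1 z.2 G = z.1.2) :=
    Gd.comp (k := fun z : (T × X) × U => ((z.1.1, z.2), z.1.2)) h
      (((IF.comp IF.fst IF.fst).pair IF.snd).pair (IF.comp IF.snd IF.fst))
  have h2 : GdF S V le (fun (y : T × X) G => k y.1 G) := hk.comp IF.fst
  exact Gd.subst hP (T := T × X) (Q := fun (y : T × X) (s : U) G => k' y.1 s G = y.2) h1 h2

/-- internal functions of good values -/
theorem GdF.map (hP : Po S V le) {X : Type*} [Cd S X] {k : T → Set P → U}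
    (hk : GdF S V le k) {F : U → X} (hF : IF S F) : GdF S V le (fun t G => F (k t G)) := by
  have h2 : GdF S V le (fun (y : T × X) G => k y.1 G) := hk.comp IF.fst
  have h1 : Gd S V le (fun (z : (T × X) × U) _ => F z.2 = z.1.2) :=
    Gd.of_in hP (In.eq (IF.comp hF IF.snd) (IF.comp IF.snd IF.fst))
  exact Gd.subst hP (T := T × X) (Q := fun (y : T × X) (s : U) _ => F s = y.2) h1 h2

theorem GdF.pair (hP : Po S V le) {X : Type*} [Cd S X] {k : T → Set P → U}
    (hk : GdF S V le k) {k' : T → Set P → X} (hk' : GdF S V le k') :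
    GdF S V le (fun t G => (k t G, k' t G)) := by
  have h1 : Gd S V le (fun (y : T × (U × X)) G => k y.1 G = y.2.1) :=
    Gd.comp (k := fun y : T × (U × X) => (y.1, y.2.1)) hk
      (IF.fst.pair (IF.comp IF.fst IF.snd))
  have h2 : Gd S V le (fun (y : T × (U × X)) G => k' y.1 G = y.2.2) :=
    Gd.comp (k := fun y : T × (U × X) => (y.1, y.2.2)) hk'
      (IF.fst.pair (IF.comp IF.snd IF.snd))
  exact (Gd.and hP h1 h2).congr fun y G _ => Prod.ext_iff

theorem GdF.map2 (hP : Po S V le) {X : Type*} [Cd S X] {Y : Type*} [Cd S Y]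
    {k : T → Set P → U} (hk : GdF S V le k) {k' : T → Set P → X}
    (hk' : GdF S V le k') {F : U → X → Y} (hF : IF S (fun y : U × X => F y.1 y.2)) :
    GdF S V le (fun t G => F (k t G) (k' t G)) :=
  (hk.pair hP hk').map hP hF

theorem Gd.eq (hP : Po S V le) {k k' : T → Set P → U} (h : GdF S V le k)
    (h' : GdF S V le k') : Gd S V le (fun t G => k t G = k' t G) :=
  Gd.subst hP (Q := fun t s G => k t G = s) h h'

/-- internal relations of good values -/
theorem Gd.rel (hP : Po S V le) {A : U → Prop} (hA : In S A) {k : T → Set P → U}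
    (hk : GdF S V le k) : Gd S V le (fun t G => A (k t G)) :=
  Gd.subst hP (Q := fun _ s _ => A s) (Gd.of_in hP (In.comp hA IF.snd)) hk

/-- relations between a good value and the context -/
theorem Gd.rel2 (hP : Po S V le) {A : T → U → Prop} (hA : In S (fun y : T × U => A y.1 y.2))
    {k : T → Set P → U} (hk : GdF S V le k) : Gd S V le (fun t G => A t (k t G)) :=
  Gd.subst hP (Q := fun t s _ => A t s) (Gd.of_in hP hA) hk

open Classical in
theorem GdF.ite (hP : Po S V le) {Q : T → Set P → Prop}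
    (hQ : Gd S V le Q) {k k' : T → Set P → U} (h : GdF S V le k) (h' : GdF S V le k') :
    GdF S V le (fun t G => if Q t G then k t G else k' t G) := by
  have h1 : Gd S V le (fun (y : T × U) G => Q y.1 G) := Gd.comp hQ IF.fst
  refine ((h1.and hP h).or ((h1.not hP).and hP h')).congr fun y G _ => ?_
  by_cases hq : Q y.1 G <;> simp [hq]

/-- A good family of reals. -/
def GdR (S : Set ZFSet.{0}) [Mdl S] {P : Type v} [Cd S P] (V : Set P) (le : P → P → Prop)
    {T : Type w} [Cd S T] (X : T → Set P → ℕ → ℕ) : Prop :=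
  GdF S V le (fun (y : T × ℕ) G => X y.1 G y.2)

theorem GdR.congr {X X' : T → Set P → ℕ → ℕ} (h : GdR S V le X)
    (e : ∀ t G, Gt S V le G → X' t G = X t G) : GdR S V le X' :=
  GdF.congr h fun y G hG => by rw [e y.1 G hG]

theorem GdR.app (hP : Po S V le) {X : T → Set P → ℕ → ℕ} (hX : GdR S V le X)
    {k : T → Set P → ℕ} (hk : GdF S V le k) : GdF S V le (fun t G => X t G (k t G)) :=
  GdF.subst hP (k' := fun t n G => X t G n) hX hk

theorem GdR.comp {X : T → Set P → ℕ → ℕ} (hX : GdR S V le X)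
    {k : U → T} (hk : IF S k) : GdR S V le (fun s G => X (k s) G) :=
  GdF.comp (g := fun y : U × ℕ => (k y.1, y.2)) hX ((IF.comp hk IF.fst).pair IF.snd)

/-- a good family of reals given by the values at the natural numbers -/
theorem GdR.mk {X : T → Set P → ℕ → ℕ} (h : GdF S V le (fun (y : T × ℕ) G => X y.1 G y.2)) :
    GdR S V le X := h

/-! ### The values of names -/

open Classical in
/-- the value of the name `R` of a real -/
noncomputable def evp (R : ISet S (P × ℕ × ℕ)) (G : Set P) : ℕ → ℕ := fun n =>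
  if h : ∀ m, ∃ k, (∃ p ∈ G, (p, m, k) ∈ R) ∧ ∀ k', (∃ p ∈ G, (p, m, k') ∈ R) → k' = k then
    (h n).choose else 0

theorem evp_of_fun {R : ISet S (P × ℕ × ℕ)} {G : Set P} {x : ℕ → ℕ}
    (h : ∀ n k, x n = k ↔ ∃ p ∈ G, (p, n, k) ∈ R) : evp R G = x := by
  have h1 : ∀ m, ∃ k, (∃ p ∈ G, (p, m, k) ∈ R) ∧ ∀ k', (∃ p ∈ G, (p, m, k') ∈ R) → k' = k :=
    fun m => ⟨x m, (h m _).1 rfl, fun k' h' => ((h m k').2 h').symm⟩
  funext n
  unfold evp
  rw [dif_pos h1]
  exact ((h n _).2 (h1 n).choose_spec.1).symm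

theorem evp_iff {R : ISet S (P × ℕ × ℕ)} {G : Set P} {n l : ℕ} :
    evp R G n = l ↔
      ((∀ m, ∃ k, (∃ p ∈ G, (p, m, k) ∈ R) ∧ ∀ k', (∃ p ∈ G, (p, m, k') ∈ R) → k' = k) ∧
        ∃ p ∈ G, (p, n, l) ∈ R) ∨
      ((¬ ∀ m, ∃ k, (∃ p ∈ G, (p, m, k) ∈ R) ∧ ∀ k', (∃ p ∈ G, (p, m, k') ∈ R) → k' = k) ∧
        l = 0) := by
  by_cases h : ∀ m, ∃ k, (∃ p ∈ G, (p, m, k) ∈ R) ∧ ∀ k', (∃ p ∈ G, (p, m, k') ∈ R) → k' = k
  · have h1 : evp R G n = (h n).choose := by
      unfold evp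
      rw [dif_pos h]
    have h2 := (h n).choose_spec
    rw [← h1] at h2
    constructor
    · rintro rfl
      exact Or.inl ⟨h, h2.1⟩
    · rintro (⟨-, h3⟩ | ⟨h3, -⟩)
      · exact (h2.2 l h3).symm
      · exact absurd h h3
  · have h1 : evp R G n = 0 := by
      unfold evp
      rw [dif_neg h]
    constructor
    · rintro rfl
      exact Or.inr ⟨h, h1⟩
    · rintro (⟨h3, -⟩ | ⟨-, rfl⟩)
      · exact absurd h3 h
      · exact h1

theorem Gd.inName (hP : Po S V le) {R : T → ISet S (P × ℕ × ℕ)} {m k : T → ℕ} (hR : IF S R)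
    (hm : IF S m) (hk : IF S k) :
    Gd S V le (fun t G => ∃ p ∈ G, (p, m t, k t) ∈ R t) := by
  refine (Gd.ex (Q := fun (t : T) (p : P) G => p ∈ G ∧ (p, m t, k t) ∈ R t) ?_).congr
    fun t G _ => Iff.rfl
  refine Gd.and hP (Gd.mem hP IF.snd) (Gd.of_in hP (In.mem ?_ (IF.comp hR IF.fst)))
  exact IF.snd.pair ((IF.comp hm IF.fst).pair (IF.comp hk IF.fst))

theorem Gd.funName (hP : Po S V le) {R : T → ISet S (P × ℕ × ℕ)} (hR : IF S R) :
    Gd S V le (fun t G => ∀ m, ∃ k, (∃ p ∈ G, (p, m, k) ∈ R t) ∧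
      ∀ k', (∃ p ∈ G, (p, m, k') ∈ R t) → k' = k) := by
  refine Gd.all hP (Q := fun (t : T) (m : ℕ) G => ∃ k, (∃ p ∈ G, (p, m, k) ∈ R t) ∧
      ∀ k', (∃ p ∈ G, (p, m, k') ∈ R t) → k' = k) ?_
  refine Gd.ex (Q := fun (y : T × ℕ) (k : ℕ) G => (∃ p ∈ G, (p, y.2, k) ∈ R y.1) ∧
      ∀ k', (∃ p ∈ G, (p, y.2, k') ∈ R y.1) → k' = k) ?_
  refine Gd.and hP ?_ ?_
  · exact Gd.inName hP (T := (T × ℕ) × ℕ) (R := fun y => R y.1.1) (m := fun y => y.1.2)
      (k := fun y => y.2) (IF.comp hR (IF.comp IF.fst IF.fst)) (IF.comp IF.snd IF.fst) IF.snd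
  · refine Gd.all hP (Q := fun (y : (T × ℕ) × ℕ) (k' : ℕ) G =>
      (∃ p ∈ G, (p, y.1.2, k') ∈ R y.1.1) → k' = y.2) ?_
    refine Gd.imp hP ?_ (Gd.of_in hP (In.eq IF.snd (IF.comp IF.snd IF.fst)))
    exact Gd.inName hP (T := ((T × ℕ) × ℕ) × ℕ) (R := fun y => R y.1.1.1)
      (m := fun y => y.1.1.2) (k := fun y => y.2)
      (IF.comp hR (IF.comp IF.fst (IF.comp IF.fst IF.fst)))
      (IF.comp IF.snd (IF.comp IF.fst IF.fst)) IF.snd

theorem GdR.evp (hP : Po S V le) {R : T → ISet S (P × ℕ × ℕ)} (hR : IF S R) :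
    GdR S V le (fun t G => evp (R t) G) := by
  have hR2 : IF S (fun y : (T × ℕ) × ℕ => R y.1.1) := IF.comp hR (IF.comp IF.fst IF.fst)
  have h1 := Gd.funName hP hR2
  have h2 : Gd S V le (fun (y : (T × ℕ) × ℕ) G => ∃ p ∈ G, (p, y.1.2, y.2) ∈ R y.1.1) :=
    Gd.inName hP hR2 (IF.comp IF.snd IF.fst) IF.snd
  have h3 : Gd S V le (fun (y : (T × ℕ) × ℕ) _ => y.2 = 0) :=
    Gd.of_in hP (In.eq IF.snd (IF.const 0))
  exact ((h1.and hP h2).or ((h1.not hP).and hP h3)).congr fun y G _ => evp_iff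

theorem evp_mem_Reals (hP : Po S V le) {G : Set P} (hG : Gt S V le G)
    (R : ISet S (P × ℕ × ℕ)) : MP_20495c_lc.evp R G ∈ Reals (ext S G) := by
  have := ext_mdl hP hG
  rw [mem_Reals_iff (N := ext S G) Mdl.tr]
  have h : GdR S V le (fun (_ : ℕ) G => MP_20495c_lc.evp R G) :=
    GdR.evp hP (R := fun _ : ℕ => R) (IF.const R)
  have h1 : Gd S V le (fun (y : ℕ × ℕ) G => MP_20495c_lc.evp R G y.1 = y.2) :=
    Gd.comp (k := fun y : ℕ × ℕ => ((0, y.1), y.2)) h (((IF.const 0).pair IF.fst).pair IF.snd)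
  exact h1.in_ext hP hG rfl

/-- the reals of the extension are the values of the names -/
theorem Reals_ext (hP : Po S V le) {G : Set P} (hG : Gt S V le G) :
    Reals (ext S G) = {x | ∃ R : ISet S (P × ℕ × ℕ), MP_20495c_lc.evp R G = x} := by
  ext x
  constructor
  · intro hx
    obtain ⟨F, h1, h2⟩ := (mem_Reals_ext_iff hP hG).1 hx
    refine ⟨ISet.mk (P := fun y : P × ℕ × ℕ => F ((y.2.1, y.2.2), y.1)) ?_,
      evp_of_fun fun n k => h2 n k⟩
    exact In.comp (f := fun y : P × ℕ × ℕ => ((y.2.1, y.2.2), y.1)) h1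
      (((IF.comp IF.fst IF.snd).pair (IF.comp IF.snd IF.snd)).pair IF.fst)
  · rintro ⟨R, rfl⟩
    exact evp_mem_Reals hP hG R

end Pool.Agent.H.MP_20495c_lc
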