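import Pool.Agent.H.MP_20495c_lc.TE.Ext
import Pool.Agent.H.MP_a163f2_lc.E.E5

/-!
# MP_20495c_lc, block TE, part 3: typed generic extensions

For an internal preorder `(V, le)` of the model `S` and a generic filter `G`: `ext S G` is a model,
it contains `S`; `In_ext_iff` characterizes the internal relations of `ext S G`; `G` is internal in
`ext S G`; `ext S G` is the least model with these properties.
-/

set_option autoImplicit false
set_option linter.unusedSectionVars false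

namespace Pool.Agent.H.MP_20495c_lc

open Pool.Agent.H.MP_07d118_lc Pool.Agent.H.MP_a163f2_lc

universe u v w x

section typed

variable {S : Set ZFSet.{0}} [Mdl S] {P : Type v} [Cd S P] {V : Set P} {le : P → P → Prop}
  {G : Set P}

theorem mem_cds_iff {p : P} : ((Cd.code p : S) : ZFSet.{0}) ∈ cds S G ↔ p ∈ G := by
  constructor
  · rintro ⟨q, hq, e⟩
    rwa [← Cd.inj (M := S) (Subtype.ext e)]
  · intro h
    exact ⟨p, h, rfl⟩

/-- a typed generic filter gives a generic filter in the sense of block Z -/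
theorem gt_gen (hP : Po S V le) (hG : Gt S V le G) :
    Z.Gen (M := S) (ISet.mk hP.inV).cod (ISet.mk hP.inle).cod
      {x : S | (x : ZFSet.{0}) ∈ cds S G} := by
  have hc : ∀ x : S, x ∈ {x : S | (x : ZFSet.{0}) ∈ cds S G} ↔ ∃ p ∈ G, Cd.code p = x := by
    intro x
    constructor
    · rintro ⟨p, hp, e⟩
      exact ⟨p, hp, Subtype.ext e⟩
    · rintro ⟨p, hp, rfl⟩
      exact ⟨p, hp, rfl⟩
  have hV : ∀ x : S, x ∈ (ISet.mk hP.inV).cod ↔ ∃ p ∈ V, Cd.code p = x := fun x =>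
    ISet.mem_cod_iff
  have hL : ∀ p q : P, opair (Cd.code p) (Cd.code q) ∈ ((ISet.mk hP.inle).cod : S) ↔
      p ∈ V ∧ q ∈ V ∧ le p q :=
    fun p q => ISet.mem_cod (M := S) (A := ISet.mk hP.inle) (t := (p, q))
  refine ⟨?_, ?_, ?_, ?_, ?_, ?_, ?_⟩
  · intro x hx
    obtain ⟨p, hp, rfl⟩ := (hV x).1 hx
    exact ⟨hx, hx, (hL p p).2 ⟨hp, hp, hP.refl p hp⟩⟩
  · rintro x y z ⟨h1, h2, h3⟩ ⟨h4, h5, h6⟩
    obtain ⟨p, hp, rfl⟩ := (hV x).1 h1
    obtain ⟨q, hq, rfl⟩ := (hV y).1 h2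
    obtain ⟨r, hr, rfl⟩ := (hV z).1 h5
    exact ⟨h1, h5, (hL p r).2 ⟨hp, hr, hP.trans p hp q hq r hr ((hL p q).1 h3).2.2
      ((hL q r).1 h6).2.2⟩⟩
  · intro x hx
    obtain ⟨p, hp, rfl⟩ := (hc x).1 hx
    exact (hV _).2 ⟨p, hG.sub p hp, rfl⟩
  · obtain ⟨p, hp⟩ := hG.ne
    exact ⟨Cd.code p, (hc _).2 ⟨p, hp, rfl⟩⟩
  · rintro x y hx ⟨-, h2, h3⟩
    obtain ⟨p, hp, rfl⟩ := (hc x).1 hx
    obtain ⟨q, hq, rfl⟩ := (hV y).1 h2
    exact (hc _).2 ⟨q, hG.up p hp q hq ((hL p q).1 h3).2.2, rfl⟩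
  · intro x y hx hy
    obtain ⟨p, hp, rfl⟩ := (hc x).1 hx
    obtain ⟨q, hq, rfl⟩ := (hc y).1 hy
    obtain ⟨r, hr, h1, h2⟩ := hG.dir p hp q hq
    have hm : ∀ s ∈ G, (Cd.code s : S) ∈ (ISet.mk hP.inV).cod := fun s hs =>
      (hV _).2 ⟨s, hG.sub s hs, rfl⟩
    exact ⟨Cd.code r, (hc _).2 ⟨r, hr, rfl⟩,
      ⟨hm r hr, hm p hp, (hL r p).2 ⟨hG.sub r hr, hG.sub p hp, h1⟩⟩,
      ⟨hm r hr, hm q hq, (hL r q).2 ⟨hG.sub r hr, hG.sub q hq, h2⟩⟩⟩
  · intro D hD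
    obtain ⟨p, hp, h1⟩ := hG.meets (ISet.mk (P := fun p : P => Cd.code p ∈ D)
      ⟨D, fun _ => Iff.rfl⟩) (by
        intro p hp
        obtain ⟨y, ⟨h1, h2, h3⟩, h4⟩ := hD (Cd.code p) ((hV _).2 ⟨p, hp, rfl⟩)
        obtain ⟨q, hq, rfl⟩ := (hV y).1 h1
        exact ⟨q, hq, ((hL q p).1 h3).2.2, h4⟩)
    exact ⟨Cd.code p, (hc _).2 ⟨p, hp, rfl⟩, h1⟩

theorem ext_mdl (hP : Po S V le) (hG : Gt S V le G) : Mdl (ext S G) := gext_mdl (gt_gen hP hG)

theorem sub_ext (hP : Po S V le) (hG : Gt S V le G) : S ⊆ ext S G := sub_gext (gt_gen hP hG)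

/-- **the internal relations of the extension** -/
theorem In_ext_iff (hP : Po S V le) (hG : Gt S V le G) {N : Set ZFSet.{0}} [Mdl N]
    (hN : N = ext S G) {T : Type w} [Cd S T] [Cd N T] [hx : Cx S N T] {A : T → Prop} :
    In N A ↔ ∃ F : T × P → Prop, In S F ∧ ∀ t, A t ↔ ∃ p ∈ G, F (t, p) := by
  have hGG := gt_gen hP hG
  have hval := Z.isVal_zval (S := S) {x : S | (x : ZFSet.{0}) ∈ cds S G}
  have hGn : Z.Gn {x : S | (x : ZFSet.{0}) ∈ cds S G} := ⟨_, _, hGG⟩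
  obtain ⟨P', hP'⟩ : ∃ P' : S, P' = (ISet.mk hP.inV).cod := ⟨_, rfl⟩
  rw [← hP'] at hGG
  have hcode : ∀ t : T, Z.zval {x : S | (x : ZFSet.{0}) ∈ cds S G} (Z.chk P' (Cd.code t)) =
      ((Cd.code t : N) : ZFSet.{0}) := by
    intro t
    rw [Z.val_chk Mdl.tr hGG hval, hx.eq]
  constructor
  · rintro ⟨r, hr⟩
    have hrN : (r : ZFSet.{0}) ∈ ext S G := hN ▸ r.2
    obtain ⟨σ, hσ⟩ := hrN
    obtain ⟨F, hF, hFQ⟩ := Z.Good.vmem (G := {x : S | (x : ZFSet.{0}) ∈ cds S G}) hval (n := 1)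
      (F := fun w => Z.chk P' (w 0)) (K := fun _ => σ) (Z.DfF.Chk P' (DfF.var 0)) (DfF.const σ)
    refine ⟨fun y => F (Cd.code y.2) (fun _ => Cd.code y.1), ?_, fun t => ?_⟩
    · refine In.of_df (R := fun x => ∃ a b : S, x = opair a b ∧ F b (fun _ => a)) ?_ ?_
      · refine Df.ex (P := fun a (w : Fin 1 → S) => ∃ b : S, w 0 = opair a b ∧ F b (fun _ => a)) ?_
        refine Df.ex (P := fun b (w : Fin 2 → S) => w 1 = opair (w 0) b ∧ F b (fun _ => w 0)) ?_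
        refine Df.and (Df.eq (DfF.var 2) (DfF.Opair (DfF.var 1) (DfF.var 0))) ?_
        exact hF.reindex (fun i : Fin 2 => Fin.cases (0 : Fin 3) (fun _ => 1) i)
      · rintro ⟨t, p⟩
        constructor
        · intro h
          exact ⟨_, _, rfl, h⟩
        · rintro ⟨a, b, h1, h2⟩
          obtain ⟨rfl, rfl⟩ := opair_inj.1 h1
          exact h2
    · rw [← hr t]
      have h1 : (Cd.code t : N) ∈ r ↔ Z.zval {x : S | (x : ZFSet.{0}) ∈ cds S G}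
          (Z.chk P' (Cd.code t)) ∈ Z.zval {x : S | (x : ZFSet.{0}) ∈ cds S G} σ := by
        rw [hcode t, hσ]
        exact Iff.rfl
      rw [h1]
      refine (hFQ (fun _ => Cd.code t)).trans ?_
      constructor
      · rintro ⟨p, ⟨q, hq, e⟩, h2⟩
        have e' : Cd.code q = p := Subtype.ext e
        rw [← e'] at h2
        exact ⟨q, hq, h2⟩
      · rintro ⟨q, hq, h2⟩
        exact ⟨Cd.code q, ⟨q, hq, rfl⟩, h2⟩
  · rintro ⟨F, ⟨R, hR⟩, hFA⟩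
    have hcd : DfF (fun w : Fin 1 → S => Z.chk P' (w 0)) := Z.DfF.Chk P' (DfF.var 0)
    obtain ⟨τ, -, hτ⟩ := Z.ex_sep hGG hval (Q := fun π => ∃ z p : S, π = Z.chk P' z ∧
      {x : S | (x : ZFSet.{0}) ∈ cds S G} p ∧ opair z p ∈ R) (by
        refine Z.Good.ex (Z.Good.ex (Z.Good.and ?_ (Z.Good.and ?_ ?_)))
        · exact Z.Good.of_df (Df.eq (DfF.var 2) (Z.DfF.Chk P' (DfF.var 1)))
        · exact Z.Good.memG (DfF.var 0)
        · exact Z.Good.of_df (Df.mem (DfF.Opair (DfF.var 1) (DfF.var 0)) (DfF.const _)))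
      (image (Cd.car T : S) (Z.chk P'))
    have hτN : Z.zval {x : S | (x : ZFSet.{0}) ∈ cds S G} τ ∈ N := by
      rw [hN]
      exact ⟨τ, rfl⟩
    refine ⟨⟨_, hτN⟩, fun t => ?_⟩
    show ((Cd.code t : N) : ZFSet.{0}) ∈ Z.zval {x : S | (x : ZFSet.{0}) ∈ cds S G} τ ↔ A t
    rw [hτ, hFA]
    constructor
    · rintro ⟨π, h1, ⟨w, p, rfl, h2, h3⟩, h4⟩
      obtain ⟨w', h5, h6⟩ := (mem_image hcd).1 h1
      obtain ⟨t', rfl⟩ := (Cd.mem_car w').1 h5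
      have h7 : w = Cd.code t := by
        refine Subtype.ext ?_
        rw [← Z.val_chk Mdl.tr hGG hval w, ← h4, hx.eq]
      rw [h7] at h3
      obtain ⟨q, hq, e⟩ := h2
      have e' : Cd.code q = p := Subtype.ext e
      rw [← e'] at h3
      exact ⟨q, hq, (hR (t, q)).1 h3⟩
    · rintro ⟨p, hp, h⟩
      exact ⟨Z.chk P' (Cd.code t), (mem_image hcd).2 ⟨_, code_mem_car t, rfl⟩,
        ⟨_, Cd.code p, rfl, ⟨p, hp, rfl⟩, (hR (t, p)).2 h⟩, (hcode t).symm⟩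

/-- the generic filter is internal in the extension -/
theorem In_gen (hP : Po S V le) (hG : Gt S V le G) {N : Set ZFSet.{0}} [Mdl N]
    (hN : N = ext S G) [Cd N P] [Cx S N P] : In N (fun p : P => p ∈ G) := by
  refine (In_ext_iff hP hG hN).2 ⟨fun y => y.1 = y.2, In.eq IF.fst IF.snd, fun p => ?_⟩
  simp

/-- the extension is contained in every model containing `S` and `G` -/
theorem ext_sub {N : Set ZFSet.{0}} [Mdl N] (hSN : S ⊆ N) [Cd N P] [hx : Cx S N P]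
    (h : In N (fun p : P => p ∈ G)) : ext S G ⊆ N := by
  refine gext_sub Mdl.tr hSN (g := ((ISet.mk h).cod : N).1) (ISet.mk h).cod.2 fun x hx' => ?_
  rw [mem_cod_val]
  constructor
  · rintro ⟨p, hp, rfl⟩
    exact ⟨p, hp, hx.eq p⟩
  · rintro ⟨p, hp, rfl⟩
    exact ⟨p, hp, (hx.eq p).symm⟩

/-- the reals of the extension -/
theorem mem_Reals_ext_iff (hP : Po S V le) (hG : Gt S V le G) {x : ℕ → ℕ} :
    x ∈ Reals (ext S G) ↔ ∃ F : (ℕ × ℕ) × P → Prop, In S F ∧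
      ∀ n k, x n = k ↔ ∃ p ∈ G, F ((n, k), p) := by
  have := ext_mdl hP hG
  rw [mem_Reals_iff (N := ext S G) Mdl.tr]
  refine (In_ext_iff hP hG rfl (T := ℕ × ℕ) (A := fun y : ℕ × ℕ => x y.1 = y.2)).trans ?_
  refine exists_congr fun F => and_congr Iff.rfl ⟨fun h n k => h (n, k), fun h t => h t.1 t.2⟩

end typed

end Pool.Agent.H.MP_20495c_lc
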