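import Pool.Agent.H.MP_20495c_lc.Base

/-!
# MP_20495c_lc, block TE, part 1: coded types in two transitive models

Instances of `Cx S N T` (the same codes in `S` and in `N`), and the transfer of internal relations
and functions to a larger model.
-/

set_option autoImplicit false
set_option linter.unusedSectionVars false

namespace Pool.Agent.H.MP_20495c_lc

open Pool.Agent.H.MP_07d118_lc Pool.Agent.H.MP_a163f2_lc

universe u v w x

variable {S N : Set ZFSet.{0}}

theorem cx_up [Mdl S] (h : S ⊆ N) (T : Type v) [Cd S T] : @Cx S N T _ (CdUp h T) :=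
  @Cx.mk S N T _ (CdUp h T) fun _ => rfl

theorem Cx.refl (S : Set ZFSet.{0}) (T : Type v) [Cd S T] : Cx S S T := ⟨fun _ => rfl⟩

theorem Cx.symm {T : Type v} [Cd S T] [Cd N T] (h : Cx S N T) : Cx N S T :=
  ⟨fun t => (h.eq t).symm⟩

theorem Cx.trans {N' : Set ZFSet.{0}} {T : Type v} [Cd S T] [Cd N T] [Cd N' T] (h : Cx S N T)
    (h' : Cx N N' T) : Cx S N' T := ⟨fun t => (h.eq t).trans (h'.eq t)⟩

/-- a relation which is internal in the smaller model is internal in the larger one -/
theorem In_up {T : Type v} [Cd S T] [Cd N T] [hu : Cx S N T] (h : S ⊆ N) {P : T → Prop}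
    (hP : In S P) : In N P := by
  obtain ⟨r, hr⟩ := hP
  refine ⟨⟨r.1, h r.2⟩, fun t => ?_⟩
  rw [← hr t]
  show (Cd.code t : N).1 ∈ r.1 ↔ (Cd.code t : S).1 ∈ r.1
  rw [hu.eq t]

/-- internality only depends on the codes -/
theorem In_of_mem {T : Type v} [Cd S T] {P : T → Prop} {r : ZFSet.{0}} (hr : r ∈ S)
    (h : ∀ t, (Cd.code t : S).1 ∈ r ↔ P t) : In S P := ⟨⟨r, hr⟩, h⟩

instance instCxNat [Mdl S] [Mdl N] : Cx S N ℕ := by
  refine ⟨fun n => ?_⟩
  show (nm n : S).1 = (nm n : N).1
  rw [Z.abs_nm Mdl.tr, Z.abs_nm Mdl.tr]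

instance instCxProd [Mdl S] [Mdl N] (T : Type v) (U : Type w) [Cd S T] [Cd N T] [hT : Cx S N T]
    [Cd S U] [Cd N U] [hU : Cx S N U] : Cx S N (T × U) := by
  refine ⟨fun t => ?_⟩
  show (opair (Cd.code t.1) (Cd.code t.2) : S).1 = (opair (Cd.code t.1) (Cd.code t.2) : N).1
  rw [Z.abs_opair Mdl.tr, Z.abs_opair Mdl.tr, hT.eq, hU.eq]

instance instCxListNat [Mdl S] [Mdl N] : Cx S N (List ℕ) :=
  ⟨fun t => (instCxNat (S := S) (N := N)).eq (Encodable.encode t)⟩

instance instCxListListNat [Mdl S] [Mdl N] : Cx S N (List (List ℕ)) :=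
  ⟨fun t => (instCxNat (S := S) (N := N)).eq (Encodable.encode t)⟩

theorem mem_cod_val [Mdl S] {T : Type v} [Cd S T] {A : ISet S T} {z : ZFSet.{0}} :
    z ∈ (A.cod).1 ↔ ∃ t, t ∈ A ∧ (Cd.code t : S).1 = z := by
  constructor
  · intro hz
    obtain ⟨y, hy, rfl⟩ := Z.abs_mem Mdl.tr hz
    obtain ⟨t, ht, rfl⟩ := ISet.mem_cod_iff.1 hy
    exact ⟨t, ht, rfl⟩
  · rintro ⟨t, ht, rfl⟩
    exact ISet.mem_cod_iff.2 ⟨t, ht, rfl⟩

instance instCxFinset [Mdl S] [Mdl N] (T : Type v) [Cd S T] [Cd N T] [hT : Cx S N T] :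
    Cx S N (Finset T) := by
  refine ⟨fun s => ?_⟩
  show ((fis s : ISet S T).cod).1 = ((fis s : ISet N T).cod).1
  refine ZFSet.ext fun z => ?_
  rw [mem_cod_val, mem_cod_val]
  refine exists_congr fun t => and_congr Iff.rfl ?_
  rw [hT.eq]

/-- an internal function of the smaller model is an internal function of the larger one -/
theorem IF_up [Mdl S] [Mdl N] {T : Type v} {U : Type w} [Cd S T] [Cd N T] [Cx S N T]
    [Cd S U] [Cd N U] [Cx S N U] (h : S ⊆ N) {f : T → U} (hf : IF S f) : IF N f :=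
  In_up (T := T × U) h hf

section iset

variable [Mdl S] [Mdl N] {T : Type v} [Cd S T] [Cd N T] [Cx S N T] (h : S ⊆ N)

/-- an internal subset of the smaller model as an internal subset of the larger one -/
def ISet_up (A : ISet S T) : ISet N T := ⟨A.1, In_up h A.2⟩

@[simp] theorem mem_ISet_up {A : ISet S T} {t : T} : t ∈ ISet_up h A ↔ t ∈ A := Iff.rfl

theorem ISet_up_inj : Function.Injective (ISet_up h : ISet S T → ISet N T) := by
  intro A B e
  ext t
  exact Iff.of_eq (congrArg (fun C : ISet N T => t ∈ C) e)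

/-- the code of an internal subset is the same in both models -/
theorem code_ISet_up (A : ISet S T) :
    ((Cd.code (ISet_up h A) : N) : ZFSet.{0}) = ((Cd.code A : S) : ZFSet.{0}) := by
  show ((ISet_up h A).cod).1 = (A.cod).1
  refine ZFSet.ext fun z => ?_
  rw [mem_cod_val, mem_cod_val]
  refine exists_congr fun t => and_congr Iff.rfl ?_
  rw [← Cx.eq (S := S) (N := N) t]

/-- the inclusion of the internal subsets is internal, for every coding of `ISet S T` in `N` by
the codes of `S` -/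
theorem IF_ISet_up [Cd N (ISet S T)] [hc : Cx S N (ISet S T)] :
    IF N (ISet_up h : ISet S T → ISet N T) := by
  refine IF.of_mem ?_
  have hm : In S (fun y : ISet S T × T => y.2 ∈ y.1) := In.mem IF.snd IF.fst
  exact In_up (T := ISet S T × T) h hm

end iset

end Pool.Agent.H.MP_20495c_lc
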